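import Pool.Agent.Helper54.FL2.FibB

/-!
# Project FL2, module G5 (FIB): maps of Kan fibrations
-/

open CategoryTheory MonoidalCategory CartesianMonoidalCategory Simplicial Opposite
  HomotopicalAlgebra Limits

set_option autoImplicit false

namespace Pool.Agent.Helper54.FL2

open _root_.FL SSet SSet.modelCategoryQuillen Pool.Agent.Helper45.FL2

/-! ### Edges -/

theorem cn_of_path {B : SSet.{0}} {b b' : B.obj (op ⦋0⦌)} (h : (Δ[0] : SSet.{0}) ⊗ Δ[1] ⟶ B)
    (h0 : SSet.ι₀ ≫ h = SSet.const b) (h1 : SSet.ι₁ ≫ h = SSet.const b') : Cn B b b' := by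
  let pt : (Δ[0] : SSet.{0}).obj (op ⦋1⦌) := stdSimplex.const 0 0 _
  let pt0 : (Δ[0] : SSet.{0}).obj (op ⦋0⦌) := stdSimplex.const 0 0 _
  let ed : (Δ[1] : SSet.{0}).obj (op ⦋1⦌) := stdSimplex.objEquiv.symm (𝟙 _)
  refine ⟨h.app _ (pt, ed), ?_, ?_⟩
  · have e1 := sset_nat h (SimplexCategory.δ 1).op (pt, ed)
    have e2 := ConcreteCategory.congr_hom (NatTrans.congr_app h0 (op ⦋0⦌)) pt0
    refine e1.symm.trans (Eq.trans ?_ (e2.trans (cst_zero B b)))
    refine congrArg (h.app _) (Prod.ext rfl ?_)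
    refine SSet.stdSimplex.ext _ _ fun j => ?_
    obtain rfl : j = 0 := Subsingleton.elim (α := Fin 1) _ _
    rfl
  · have e1 := sset_nat h (SimplexCategory.δ 0).op (pt, ed)
    have e2 := ConcreteCategory.congr_hom (NatTrans.congr_app h1 (op ⦋0⦌)) pt0
    refine e1.symm.trans (Eq.trans ?_ (e2.trans (cst_zero B b')))
    refine congrArg (h.app _) (Prod.ext rfl ?_)
    refine SSet.stdSimplex.ext _ _ fun j => ?_
    obtain rfl : j = 0 := Subsingleton.elim (α := Fin 1) _ _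
    rfl

theorem cn_iff {B : SSet.{0}} {b b' : B.obj (op ⦋0⦌)} :
    Cn B b b' ↔ Htpy (SSet.const b : (Δ[0] : SSet.{0}) ⟶ B) (SSet.const b') := by
  rw [Pool.Agent.Helper88.FL.htpy_iff]
  constructor
  · exact fun h => exists_path_of_cn h
  · rintro ⟨h, h0, h1⟩
    exact cn_of_path h h0 h1

theorem cn_refl {B : SSet.{0}} (b : B.obj (op ⦋0⦌)) : Cn B b b :=
  cn_iff.2 (Pool.Agent.Helper88.FL.htpy_refl _)

theorem cn_trans {B : SSet.{0}} (hB : SSet.KanComplex B) {a b c : B.obj (op ⦋0⦌)}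
    (h : Cn B a b) (h' : Cn B b c) : Cn B a c :=
  cn_iff.2 (Pool.Agent.Helper88.FL.htpy_trans hB (cn_iff.1 h) (cn_iff.1 h'))

theorem cn_map {B D : SSet.{0}} (g : B ⟶ D) {b b' : B.obj (op ⦋0⦌)} (h : Cn B b b') :
    Cn D (g.app _ b) (g.app _ b') := by
  have := Pool.Agent.Helper88.FL.htpy_post (cn_iff.1 h) g
  rw [const_comp, const_comp] at this
  exact cn_iff.2 this

theorem cn_of_trivFib {E B : SSet.{0}} {r : E ⟶ B} (hr : TrivFib r) {x y : E.obj (op ⦋0⦌)}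
    (h : r.app _ x = r.app _ y) : Cn E x y := by
  have hm := mono_whiskerLeft (Δ[0] : SSet.{0}) (∂Δ[1] : (Δ[1] : SSet.{0}).Subcomplex).ι
  have h2 := TrivFib.lift hr ((Δ[0] : SSet.{0}) ◁ (∂Δ[1] : (Δ[1] : SSet.{0}).Subcomplex).ι)
  have sq : CommSq (two (SSet.const x : (Δ[0] : SSet.{0}) ⟶ E) (SSet.const y))
      ((Δ[0] : SSet.{0}) ◁ (∂Δ[1] : (Δ[1] : SSet.{0}).Subcomplex).ι) r
      (fst _ _ ≫ SSet.const (r.app _ x)) := ⟨by
    rw [two_comp _ _ r (SSet.const (r.app _ x)) (const_comp _ _) (by rw [const_comp, h]),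
      whiskerLeft_fst_assoc]⟩
  refine cn_of_path sq.lift ?_ ?_
  · rw [← en_zero, Category.assoc, sq.fac_left, en_zero_two]
  · rw [← en_one, Category.assoc, sq.fac_left, en_one_two]

theorem cn_lift {E B : SSet.{0}} {q : E ⟶ B} (hq : KanFib q) {b : B.obj (op ⦋0⦌)}
    {z : E.obj (op ⦋0⦌)} (h : Cn B b (q.app _ z)) : ∃ z', q.app _ z' = b ∧ Cn E z' z := by
  have := fibration_of_kanFib hq
  obtain ⟨H, H0, H1⟩ := exists_path_of_cn (X := Δ[0]) h
  obtain ⟨h', hh, h1⟩ := path_lift₁ q H (SSet.const z) (by rw [H1, const_comp])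
  let pt0 : (Δ[0] : SSet.{0}).obj (op ⦋0⦌) := stdSimplex.const 0 0 _
  have hc : SSet.ι₀ ≫ h' = SSet.const ((SSet.ι₀ ≫ h').app _ pt0) := by
    refine yonedaEquiv.injective ?_
    rw [yonedaEquiv_const]
    have : (stdSimplex.objEquiv.symm (𝟙 _) : (Δ[0] : SSet.{0}).obj (op ⦋0⦌)) = pt0 :=
      SSet.stdSimplex.ext _ _ fun j => by
        obtain rfl : j = 0 := Subsingleton.elim (α := Fin 1) _ _
        rfl
    change (SSet.ι₀ ≫ h').app _ (stdSimplex.objEquiv.symm (𝟙 _)) = _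
    rw [this]
  refine ⟨(SSet.ι₀ ≫ h').app _ pt0, ?_, cn_of_path h' hc h1⟩
  refine const_inj₀ ?_
  rw [← const_comp, ← hc, Category.assoc, hh, H0]

/-! ### The fibres of the comparison map -/

section

variable {E B E' B' : SSet.{0}} {p : E ⟶ B} {p' : E' ⟶ B'} {f : E ⟶ E'} {g : B ⟶ B'}

/-- the inclusion of the mapping path space of a fibre -/
noncomputable def JJ (w : f ≫ p' = p ≫ g) (b : B.obj (op ⦋0⦌)) :
    MP (Fb.map f g w b) ⟶ MP f :=
  mpl (mr _ ≫ Fb.ι p b) (mpath _ ≫ Fb.ι p' (g.app _ b)) (by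
    rw [Category.assoc, ← Fb_map_ι f g w b, ← Category.assoc, ← ι₀_mpath, Category.assoc])

theorem JJ_mr (w : f ≫ p' = p ≫ g) (b : B.obj (op ⦋0⦌)) :
    JJ w b ≫ mr f = mr _ ≫ Fb.ι p b := rfl

theorem JJ_mpath (w : f ≫ p' = p ≫ g) (b : B.obj (op ⦋0⦌)) :
    JJ w b ▷ Δ[1] ≫ mpath f = mpath _ ≫ Fb.ι p' (g.app _ b) := mpl_mpath _ _ _

theorem JJ_mq (w : f ≫ p' = p ≫ g) (b : B.obj (op ⦋0⦌)) :
    JJ w b ≫ mq f = mq _ ≫ Fb.ι p' (g.app _ b) := by
  rw [JJ, mpl_mq, ← Category.assoc]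
  rfl

theorem ms_const {K : SSet.{0}} (g : B ⟶ B') (b : B.obj (op ⦋0⦌)) :
    (SSet.const ((ms g).app _ b) : K ⟶ MP g) = SSet.const b ≫ ms g := (const_comp _ _).symm

theorem const_mq {K : SSet.{0}} (g : B ⟶ B') (b : B.obj (op ⦋0⦌)) :
    (SSet.const ((ms g).app _ b) : K ⟶ MP g) ≫ mq g = SSet.const (g.app _ b) := by
  rw [ms_const, Category.assoc, ms_mq, const_comp]

theorem JJ_mmap (w : f ≫ p' = p ≫ g) (b : B.obj (op ⦋0⦌)) :
    JJ w b ≫ mmap w = SSet.const ((ms g).app _ b) := by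
  rw [ms_const]
  refine mp_ext ?_ ?_
  · rw [Category.assoc, mmap_mr, ← Category.assoc, JJ_mr, Category.assoc, Fb_ι_p, comp_const,
      Category.assoc, ms_mr, Category.comp_id]
  · rw [comp_whiskerRight, Category.assoc, mmap_mpath, ← Category.assoc, JJ_mpath,
      Category.assoc, Fb_ι_p, comp_const, comp_whiskerRight, Category.assoc, ms_mpath,
      whiskerRight_fst_assoc, const_comp, comp_const]

/-- A map to `MP f` over the constant path at `b` comes from the mapping path space of the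
fibre. -/
theorem exists_JJ (w : f ≫ p' = p ≫ g) (b : B.obj (op ⦋0⦌)) {K : SSet.{0}} (u : K ⟶ MP f)
    (h : u ≫ mmap w = SSet.const ((ms g).app _ b)) :
    ∃ u' : K ⟶ MP (Fb.map f g w b), u' ≫ JJ w b = u := by
  rw [ms_const] at h
  have h1 : (u ≫ mr f) ≫ p = SSet.const b := by
    have := congrArg (· ≫ mr g) h
    simp only [Category.assoc] at this
    rw [mmap_mr, ms_mr, Category.comp_id] at this
    rw [Category.assoc, this]
  have h2 : (u ▷ Δ[1] ≫ mpath f) ≫ p' = SSet.const (g.app _ b) := by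
    have := congrArg (fun t => t ▷ Δ[1] ≫ mpath g) h
    simp only [comp_whiskerRight, Category.assoc] at this
    rw [mmap_mpath, ms_mpath, whiskerRight_fst_assoc, const_comp, comp_const] at this
    rw [Category.assoc, this]
  obtain ⟨x, hx⟩ := exists_fb _ h1
  obtain ⟨k, hk⟩ := exists_fb _ h2
  have hw : x ≫ Fb.map f g w b = SSet.ι₀ ≫ k := by
    refine Fb_ext ?_
    rw [Category.assoc, Fb_map_ι, ← Category.assoc, hx, Category.assoc, Category.assoc, hk,
      comp_mr]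
  refine ⟨mpl x k hw, mp_ext ?_ ?_⟩
  · rw [Category.assoc, JJ_mr, ← Category.assoc, mpl_mr, hx]
  · rw [comp_whiskerRight, Category.assoc, JJ_mpath, ← Category.assoc, mpl_mpath, hk]

theorem mono_JJ (w : f ≫ p' = p ≫ g) (b : B.obj (op ⦋0⦌)) {K : SSet.{0}}
    {u v : K ⟶ MP (Fb.map f g w b)} (h : u ≫ JJ w b = v ≫ JJ w b) : u = v := by
  refine mp_ext (Fb_ext ?_) (Fb_ext ?_)
  · rw [Category.assoc, Category.assoc, ← JJ_mr, ← Category.assoc, h, Category.assoc]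
  · rw [Category.assoc, Category.assoc, ← JJ_mpath, ← Category.assoc, ← comp_whiskerRight, h,
      comp_whiskerRight, Category.assoc]

theorem mq_fb_trivFib (w : f ≫ p' = p ≫ g) (h : TrivFib (Th w)) (b : B.obj (op ⦋0⦌)) :
    TrivFib (mq (Fb.map f g w b)) := by
  intro n
  constructor
  intro u v sq
  have := h n
  have sq' : CommSq (u ≫ JJ w b) ∂Δ[n].ι (Th w) (Fp.lift (SSet.const ((ms g).app _ b))
      (v ≫ Fb.ι p' (g.app _ b)) (by
        rw [Category.assoc, Fb_ι_p, comp_const, const_mq])) := ⟨by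
    refine Fp_ext ?_ ?_
    · rw [Category.assoc, Category.assoc, Th_fst, JJ_mmap, Category.assoc, Fp_lift_fst,
        comp_const, comp_const]
    · rw [Category.assoc, Category.assoc, Th_snd, JJ_mq, Category.assoc, Fp_lift_snd,
        ← Category.assoc, ← Category.assoc, sq.w]⟩
  have hl := sq'.fac_right
  have hl1 : sq'.lift ≫ mmap w = SSet.const ((ms g).app _ b) := by
    rw [← Th_fst w, ← Category.assoc, hl, Fp_lift_fst]
  obtain ⟨l, hl2⟩ := exists_JJ w b sq'.lift hl1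
  refine ⟨⟨{ l := l, fac_left := ?_, fac_right := ?_ }⟩⟩
  · refine mono_JJ w b ?_
    rw [Category.assoc, hl2, sq'.fac_left]
  · refine Fb_ext ?_
    rw [Category.assoc, ← JJ_mq, ← Category.assoc, hl2, ← Th_snd w, ← Category.assoc, hl,
      Fp_lift_snd]

theorem Fb_map_hoEq (hp : KanFib p) (hp' : KanFib p')
    (hB : SSet.KanComplex B) (hB' : SSet.KanComplex B') (f : E ⟶ E') (g : B ⟶ B')
    (w : f ≫ p' = p ≫ g) (hf : HoEq f) (hg : HoEq g) (b : B.obj (op (SimplexCategory.mk 0))) :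
    HoEq (Fb.map f g w b) :=
  hoEq_of_mq (kan_fb hp b) (kan_fb hp' _)
    (TrivFib.hoEq (mq_fb_trivFib w (Th_trivFib w hp hp' hB hB' hf hg) b))

theorem Th_trivFib_of_fibres (hp : KanFib p) (hp' : KanFib p')
    (hB : SSet.KanComplex B) (hB' : SSet.KanComplex B') (w : f ≫ p' = p ≫ g)
    (O : Set (B.obj (op (SimplexCategory.mk 0))))
    (hO : ∀ b, ∃ b' ∈ O, Cn B b' b) (h : ∀ b ∈ O, HoEq (Fb.map f g w b)) : TrivFib (Th w) := by
  refine trivFib_of_ctr' (Th_kanFib w hp hp')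
    {z | ∃ b ∈ O, (Fp.fst (mq g) p').app _ z = (ms g).app _ b} ?_ ?_
  · intro z
    obtain ⟨b', hb', hc⟩ := hO ((mr g).app _ ((Fp.fst (mq g) p').app _ z))
    have h1 : Cn (MP g) ((ms g).app _ b') ((Fp.fst (mq g) p').app _ z) := by
      refine cn_trans (kan_mp hB hB') (cn_map (ms g) hc) ?_
      exact cn_of_trivFib (mr_trivFib (f := g) hB') rfl
    obtain ⟨z', hz', hcz⟩ := cn_lift (Fp_fst_kanFib (mq g) p' hp') h1
    exact ⟨z', ⟨b', hb', hz'⟩, hcz⟩
  · rintro z ⟨b, hb, hz⟩ n u hu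
    have hT : TrivFib (mq (Fb.map f g w b)) :=
      mq_trivFib_of_hoEq (kan_fb hp b) (kan_fb hp' _) (h b hb)
    have hTn := hT n
    have hfst : (SSet.const z : (Δ[n] : SSet.{0}) ⟶ _) ≫ Fp.fst (mq g) p' =
        SSet.const ((ms g).app _ b) := by rw [const_comp, hz]
    have hu1 : u ≫ mmap w = SSet.const ((ms g).app _ b) := by
      rw [← Th_fst w, ← Category.assoc, hu, Category.assoc, hfst, comp_const]
    obtain ⟨u', hu'⟩ := exists_JJ w b u hu1
    obtain ⟨v', hv'⟩ := exists_fb (p := p') (b := g.app _ b)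
      ((SSet.const z : (Δ[n] : SSet.{0}) ⟶ _) ≫ Fp.snd (mq g) p') (by
        rw [Category.assoc, ← Fp_w, ← Category.assoc, hfst, const_mq])
    have sq : CommSq u' ∂Δ[n].ι (mq (Fb.map f g w b)) v' := ⟨by
      refine Fb_ext ?_
      rw [Category.assoc, ← JJ_mq, ← Category.assoc, hu', ← Th_snd w, ← Category.assoc, hu,
        Category.assoc, Category.assoc, hv']⟩
    refine ⟨sq.lift ≫ JJ w b, ?_, ?_⟩
    · rw [← Category.assoc, sq.fac_left, hu']
    · refine Fp_ext ?_ ?_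
      · rw [Category.assoc, Category.assoc, Th_fst, JJ_mmap, comp_const, hfst]
      · rw [Category.assoc, Category.assoc, Th_snd, JJ_mq, ← Category.assoc, sq.fac_right, hv']

theorem hoEq_of_fibres (hp : KanFib p) (hp' : KanFib p')
    (hB : SSet.KanComplex B) (hB' : SSet.KanComplex B') (f : E ⟶ E') (g : B ⟶ B')
    (w : f ≫ p' = p ≫ g) (hg : HoEq g) (O : Set (B.obj (op (SimplexCategory.mk 0))))
    (hO : ∀ b, ∃ b' ∈ O, Cn B b' b) (h : ∀ b ∈ O, HoEq (Fb.map f g w b)) : HoEq f := by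
  have hE := kan_total hp hB
  have hE' := kan_total hp' hB'
  refine hoEq_of_mq hE hE' ?_
  rw [← Th_snd w]
  exact Pool.Agent.Helper88.FL.hoEq_comp (kan_mp hE hE') (kan_Q hB hB' hp') hE'
    (TrivFib.hoEq (Th_trivFib_of_fibres hp hp' hB hB' w O hO h))
    (TrivFib.hoEq (Fp_snd_trivFib (mq g) p' (mq_trivFib_of_hoEq hB hB' hg)))

end

/-! ### Fibre products -/

/-- The fibre of the first projection of a fibre product. -/
def fbFp {E₁ E₂ B : SSet.{0}} (p : E₁ ⟶ B) (q : E₂ ⟶ B) (x : E₁.obj (op ⦋0⦌))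
    (b : B.obj (op ⦋0⦌)) (hb : p.app _ x = b) : Fb q b ≅ Fb (Fp.fst p q) x where
  hom :=
    { app := fun k => ↾ fun z => ⟨⟨(cst E₁ x k, z.1), by rw [app_cst, hb, z.2]⟩, rfl⟩
      naturality := fun k l α => by
        refine ConcreteCategory.hom_ext _ _ fun z => ?_
        refine Subtype.ext (Subtype.ext (Prod.ext ?_ rfl))
        exact (cst_map E₁ x α).symm }
  inv :=
    { app := fun k => ↾ fun z => ⟨z.1.1.2, by
        have h1 : p.app k z.1.1.1 = q.app k z.1.1.2 := z.1.2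
        have h2 : z.1.1.1 = cst E₁ x k := z.2
        rw [← h1, h2, app_cst, hb]⟩
      naturality := fun k l α => rfl }
  hom_inv_id := rfl
  inv_hom_id := by
    refine NatTrans.ext (funext fun k => ?_)
    refine ConcreteCategory.hom_ext _ _ fun z => ?_
    refine Subtype.ext (Subtype.ext (Prod.ext ?_ rfl))
    exact z.2.symm

theorem Fp_map_hoEq {E₁ E₂ B F₁ F₂ D : SSet.{0}} {p : E₁ ⟶ B} {q : E₂ ⟶ B} {r : F₁ ⟶ D}
    {s : F₂ ⟶ D} (hB : SSet.KanComplex B) (hD : SSet.KanComplex D)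
    (hE₁ : SSet.KanComplex E₁) (hF₁ : SSet.KanComplex F₁) (_hE₂ : SSet.KanComplex E₂)
    (_hF₂ : SSet.KanComplex F₂) (hq : KanFib q) (hs : KanFib s)
    (f : E₁ ⟶ F₁) (f' : E₂ ⟶ F₂) (g : B ⟶ D) (h : f ≫ r = p ≫ g) (h' : f' ≫ s = q ≫ g)
    (hf : HoEq f) (hf' : HoEq f') (hg : HoEq g) : HoEq (Fp.map f f' g h h') := by
  refine hoEq_of_fibres (Fp_fst_kanFib p q hq) (Fp_fst_kanFib r s hs) hE₁ hF₁
    (Fp.map f f' g h h') f rfl hf Set.univ (fun b => ⟨b, trivial, cn_refl b⟩) ?_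
  intro x _
  refine Pool.Agent.Helper88.FL.hoEq_of_arrow_iso (fbFp p q x (p.app _ x) rfl)
    (fbFp r s (f.app _ x) (g.app _ (p.app _ x))
      (ConcreteCategory.congr_hom (NatTrans.congr_app h _) x)) ?_
    (Fb_map_hoEq hq hs hB hD f' g h' hf' hg (p.app _ x))
  refine NatTrans.ext (funext fun k => ?_)
  refine ConcreteCategory.hom_ext _ _ fun z => ?_
  refine Subtype.ext (Subtype.ext (Prod.ext ?_ rfl))
  exact (app_cst f x k).symm

end Pool.Agent.Helper54.FL2
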