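import Pool.Agent.Helper58.FL2.Comb
import Pool.Agent.Helper91.FL2.WH
import Pool.Agent.Helper41.FL2.RR

/-!
# FL2, module H4b CONST: completeness of homotopically constant presheaves

The proof does not use the horns: with `T [m](c) = [m+1](*, …, *)` there are natural maps
`θ ⟶ T θ ⟵ [0]`, and words in two letters can be extended by the letter `false`.
-/

open CategoryTheory MonoidalCategory Opposite

set_option autoImplicit false

namespace Pool.Agent.Helper54.FL2

open _root_.FL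

noncomputable section

section Functors

variable {C : Type} [SmallCategory C]

/-- Extension of a monotone map by the top element. -/
def up {a b : ℕ} (f : Fin (a + 1) →o Fin (b + 1)) : Fin (a + 1 + 1) →o Fin (b + 1 + 1) where
  toFun := Fin.lastCases (Fin.last _) fun i => (f i).castSucc
  monotone' := by
    intro i j h
    induction j using Fin.lastCases with
    | last => simpa using Fin.le_last _
    | cast j =>
      induction i using Fin.lastCases with
      | last =>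
        exfalso
        rw [Fin.le_def] at h
        have := j.2
        simp at h
        omega
      | cast i =>
        simp only [Fin.lastCases_castSucc]
        rw [Fin.castSucc_le_castSucc_iff] at h ⊢
        exact f.monotone h

@[simp] lemma up_last {a b : ℕ} (f : Fin (a + 1) →o Fin (b + 1)) :
    up f (Fin.last _) = Fin.last _ := by
  show Fin.lastCases (motive := fun _ => Fin (b + 1 + 1)) (Fin.last _)
    (fun i => (f i).castSucc) (Fin.last _) = _
  simp

@[simp] lemma up_castSucc {a b : ℕ} (f : Fin (a + 1) →o Fin (b + 1)) (i : Fin (a + 1)) :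
    up f i.castSucc = (f i).castSucc := by
  show Fin.lastCases (motive := fun _ => Fin (b + 1 + 1)) (Fin.last _)
    (fun i => (f i).castSucc) i.castSucc = _
  simp

/-- The functor `[m](c) ↦ [m+1](p, …, p)`. -/
def TT (p : C) (hp : ∀ (c : C) (f g : c ⟶ p), f = g) : Wr C ⥤ Wr C where
  obj θ := ⟨θ.len + 1, fun _ => p⟩
  map {θ θ'} φ := ({ f := up (Wr.Hom.f φ), g := fun _ _ _ => 𝟙 p } :
    Wr.Hom (⟨θ.len + 1, fun _ => p⟩ : Wr C) ⟨θ'.len + 1, fun _ => p⟩)
  map_id θ := by
    refine Wr.hom_ext' ?_ fun i j h h' => hp _ _ _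
    show up (Wr.Hom.f (𝟙 θ)) = OrderHom.id
    ext i
    induction i using Fin.lastCases with
    | last => simp
    | cast i => simp
  map_comp {θ θ' θ''} φ ψ := by
    refine Wr.hom_ext' ?_ fun i j h h' => hp _ _ _
    show up (Wr.Hom.f (φ ≫ ψ)) = (up (Wr.Hom.f ψ)).comp (up (Wr.Hom.f φ))
    ext i
    induction i using Fin.lastCases with
    | last => simp
    | cast i => simp

/-- The natural map `[m](c) ⟶ [m+1](p, …, p)`. -/
def al (p : C) (hp : ∀ (c : C) (f g : c ⟶ p), f = g) (t : ∀ c : C, c ⟶ p) :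
    𝟭 (Wr C) ⟶ TT p hp where
  app θ := ({ f := Fin.castSuccOrderEmb.toOrderHom, g := fun i _ _ => t (θ.obj i) } :
    Wr.Hom θ ⟨θ.len + 1, fun _ => p⟩)
  naturality {θ θ'} φ := by
    refine Wr.hom_ext' ?_ fun i j h h' => hp _ _ _
    show Fin.castSuccOrderEmb.toOrderHom.comp (Wr.Hom.f φ) =
      (up (Wr.Hom.f φ)).comp Fin.castSuccOrderEmb.toOrderHom
    ext i
    simp

/-- The last vertex of `[m+1](p, …, p)`. -/
def be (p : C) (hp : ∀ (c : C) (f g : c ⟶ p), f = g) (θ : Wr C) : (Wr.pt : Wr C) ⟶ (TT p hp).obj θ :=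
  ({ f := ⟨fun _ => Fin.last _, fun _ _ _ => le_refl _⟩, g := fun (i : Fin 0) _ _ => i.elim0 } :
    Wr.Hom ⟨0, Fin.elim0⟩ ⟨θ.len + 1, fun _ => p⟩)

lemma be_nat (p : C) (hp : ∀ (c : C) (f g : c ⟶ p), f = g) {θ θ' : Wr C} (φ : θ ⟶ θ') :
    be p hp θ ≫ (TT p hp).map φ = be p hp θ' := by
  refine Wr.hom_ext' ?_ fun (i : Fin 0) j h h' => i.elim0
  show (up (Wr.Hom.f φ)).comp ⟨fun _ => Fin.last _, fun _ _ _ => le_refl _⟩ =
    ⟨fun _ => Fin.last _, fun _ _ _ => le_refl _⟩
  ext i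
  exact congrArg Fin.val (up_last _)

/-- Extension of a word by the letter `false`. -/
def snc {a : ℕ} (x : Fin (a + 1) → Bool) : Fin (a + 1 + 1) → Bool := Fin.lastCases false x

lemma snc_up {a b : ℕ} (f : Fin (a + 1) →o Fin (b + 1)) (x : Fin (b + 1) → Bool) :
    (fun i => snc x (up f i)) = snc (fun i => x (f i)) := by
  funext i
  induction i using Fin.lastCases with
  | last => simp [snc]
  | cast i => simp [snc]

end Functors

section Main

variable {C : Type} [SmallCategory C] (Z : SP (Wr C)) (p : C)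
  (hp : ∀ (c : C) (f g : c ⟶ p), f = g) (t : ∀ c : C, c ⟶ p)

/-- The presheaf `θ ↦ Z(T θ)`. -/
abbrev ZT : SP (Wr C) := (TT p hp).op ⋙ Z

/-- The constant presheaf `Z([0])`. -/
abbrev Zc : SP (Wr C) := (Functor.const _).obj (Z.obj (op Wr.pt))

/-- Restriction along `θ ⟶ T θ`. -/
def rs : ZT Z p hp ⟶ Z where
  app a := Z.map ((al p hp t).app a.unop).op
  naturality a b f := by
    show Z.map _ ≫ Z.map _ = Z.map _ ≫ Z.map _
    rw [← Z.map_comp, ← Z.map_comp]
    refine congrArg Z.map ?_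
    exact Quiver.Hom.unop_inj ((al p hp t).naturality f.unop).symm

/-- Restriction along the last vertex `[0] ⟶ T θ`. -/
def ls : ZT Z p hp ⟶ Zc Z where
  app a := Z.map (be p hp a.unop).op
  naturality a b f := by
    show Z.map _ ≫ Z.map _ = Z.map _ ≫ 𝟙 _
    rw [← Z.map_comp, Category.comp_id]
    refine congrArg Z.map ?_
    exact Quiver.Hom.unop_inj (be_nat p hp f.unop)

/-- The map `φ ↦ φ(T θ)(x ⋆ false)`. -/
def GG : Mp (disc (isoPsh C)) Z ⟶ Mp (disc (isoPsh C)) (ZT Z p hp) where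
  app m := ↾ fun (φ : MpS (disc (isoPsh C)) Z m.unop) =>
    ({ app := fun a k s (x : Fin (a.unop.len + 1) → Bool) =>
        φ.app (op ((TT p hp).obj a.unop)) k s (snc x)
       nat_left := fun {a b} f k s (x : Fin (a.unop.len + 1) → Bool) => by
        have := φ.nat_left ((TT p hp).map f.unop).op k s (snc x)
        refine Eq.trans ?_ this
        refine congrArg (φ.app (op ((TT p hp).obj b.unop)) k s) ?_
        exact (snc_up (Wr.Hom.f f.unop) x).symm
       nat_right := fun a {k l} g s (x : Fin (a.unop.len + 1) → Bool) =>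
        φ.nat_right (op ((TT p hp).obj a.unop)) g s (snc x) } :
      MpS (disc (isoPsh C)) (ZT Z p hp) m.unop)
  naturality m n α := by
    ext φ
    rfl

/-- Evaluation at `[0]` and the word `false`. -/
def ev : Mp (disc (isoPsh C)) Z ⟶ Z.obj (op Wr.pt) where
  app m := ↾ fun (φ : MpS (disc (isoPsh C)) Z m.unop) => φ.app (op Wr.pt) m (𝟙 _) (fun _ => false)
  naturality m n α := by
    refine ConcreteCategory.hom_ext _ _ fun (φ : MpS (disc (isoPsh C)) Z m.unop) => ?_
    have := φ.nat_right (op Wr.pt) α (𝟙 _) (fun _ => false)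
    refine Eq.trans ?_ this
    show φ.app (op Wr.pt) n (𝟙 _ ≫ α.unop) (fun _ => false) =
      φ.app (op Wr.pt) n (α.unop ≫ 𝟙 _) (fun _ => false)
    rw [Category.comp_id, Category.id_comp]

/-- Constant maps. -/
def cs : Z.obj (op Wr.pt) ⟶ Mp (disc (isoPsh C)) (Zc Z) where
  app m := ↾ fun z =>
    ({ app := fun a k s _ => (Z.obj (op Wr.pt)).map s.op z
       nat_left := fun f k s x => rfl
       nat_right := fun a {k l} g s x => sset_comp (Z.obj (op Wr.pt)) s.op g z } :
      MpS (disc (isoPsh C)) (Zc Z) m.unop)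
  naturality m n α := by
    refine ConcreteCategory.hom_ext _ _ fun z => ?_
    refine MpS.ext ?_
    funext a k s x
    exact (sset_comp (Z.obj (op Wr.pt)) α s.op z).symm

lemma GG_rs : GG Z p hp ≫ Mp.post _ (rs Z p hp t) = 𝟙 _ := by
  refine NatTrans.ext (funext fun m => ?_)
  refine ConcreteCategory.hom_ext _ _ fun (φ : MpS (disc (isoPsh C)) Z m.unop) => ?_
  refine MpS.ext ?_
  funext a k s (x : Fin (a.unop.len + 1) → Bool)
  have := φ.nat_left ((al p hp t).app a.unop).op k s (snc x)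
  refine Eq.trans this.symm ?_
  refine congrArg (φ.app a k s) ?_
  funext i
  show snc x i.castSucc = x i
  simp [snc]

lemma GG_ls : GG Z p hp ≫ Mp.post _ (ls Z p hp) = ev Z ≫ cs Z := by
  refine NatTrans.ext (funext fun m => ?_)
  refine ConcreteCategory.hom_ext _ _ fun (φ : MpS (disc (isoPsh C)) Z m.unop) => ?_
  refine MpS.ext ?_
  funext a k s (x : Fin (a.unop.len + 1) → Bool)
  have := φ.nat_left (be p hp a.unop).op k s (snc x)
  refine Eq.trans this.symm ?_
  have h2 := φ.nat_right (op Wr.pt) s.op (𝟙 _) (fun _ => false)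
  refine Eq.trans ?_ h2
  show φ.app (op Wr.pt) k s _ = φ.app (op Wr.pt) k (s ≫ 𝟙 _) _
  rw [Category.comp_id]
  refine congrArg (φ.app (op Wr.pt) k s) ?_
  funext i
  show snc x (Fin.last _) = false
  simp [snc]

/-- `Map(1, Z) ⟶ Z([0])`. -/
def ev1 : Mp (one (Wr C)) Z ⟶ Z.obj (op Wr.pt) := Mp.pre (isoMap C) Z ≫ ev Z

/-- `Z([0]) ⟶ Map(1, Z)`. -/
def ev1i : Z.obj (op Wr.pt) ⟶ Mp (one (Wr C)) Z where
  app m := ↾ fun z =>
    ({ app := fun a k s _ => (Z.map (Wr.toPt a.unop).op).app k ((Z.obj (op Wr.pt)).map s.op z)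
       nat_left := fun {a b} f k s x => by
        refine Eq.trans ?_ (sp_comp Z (Wr.toPt a.unop).op f _)
        refine congrArg (fun q => (Z.map q).app k ((Z.obj (op Wr.pt)).map s.op z)) ?_
        exact Quiver.Hom.unop_inj (Wr.toPt_unique _ _)
       nat_right := fun a {k l} g s x => by
        refine Eq.trans ?_ (sp_nat Z (Wr.toPt a.unop).op g _)
        exact congrArg ((Z.map (Wr.toPt a.unop).op).app l)
          (sset_comp (Z.obj (op Wr.pt)) s.op g z) } : MpS (one (Wr C)) Z m.unop)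
  naturality m n α := by
    refine ConcreteCategory.hom_ext _ _ fun z => ?_
    refine MpS.ext ?_
    funext a k s x
    exact congrArg ((Z.map (Wr.toPt a.unop).op).app k)
      (sset_comp (Z.obj (op Wr.pt)) α s.op z).symm

lemma ev1_isIso : IsIso (ev1 Z) := by
  refine ⟨ev1i Z, ?_, ?_⟩
  · refine NatTrans.ext (funext fun m => ?_)
    refine ConcreteCategory.hom_ext _ _ fun (φ : MpS (one (Wr C)) Z m.unop) => ?_
    refine MpS.ext ?_
    funext a k s x
    show (Z.map (Wr.toPt a.unop).op).app k ((Z.obj (op Wr.pt)).map s.op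
      (φ.app (op Wr.pt) m (𝟙 _) PUnit.unit)) = φ.app a k s x
    have h1 := φ.nat_right (op Wr.pt) s.op (𝟙 _) PUnit.unit
    have h2 := φ.nat_left (Wr.toPt a.unop).op k s PUnit.unit
    refine (congrArg ((Z.map (Wr.toPt a.unop).op).app k) h1.symm).trans ?_
    show (Z.map (Wr.toPt a.unop).op).app k (φ.app (op Wr.pt) k (s ≫ 𝟙 _) PUnit.unit) = _
    rw [Category.comp_id]
    exact h2.symm
  · refine NatTrans.ext (funext fun m => ?_)
    refine ConcreteCategory.hom_ext _ _ fun z => ?_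
    show (Z.map (Wr.toPt Wr.pt).op).app m ((Z.obj (op Wr.pt)).map (𝟙 _) z) = z
    rw [sset_id, Wr.toPt_unique (Wr.toPt Wr.pt) (𝟙 _)]
    exact sp_id Z z

open Pool.Agent.Helper88.FL Pool.Agent.Helper91.FL2 Helper41FL2

/-- Two out of six. -/
lemma two_six {A B C D : SSet.{0}} (hB : SSet.KanComplex B)
    {p : A ⟶ B} {e : B ⟶ C} {c : C ⟶ D} (h1 : HoEq (p ≫ e)) (h2 : HoEq (e ≫ c)) : HoEq e := by
  obtain ⟨q', a1, a2⟩ := h1
  obtain ⟨q, b1, b2⟩ := h2
  have hx : Htpy (c ≫ q) (q' ≫ p) := by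
    have x1 : Htpy (c ≫ q) (q' ≫ p ≫ e ≫ c ≫ q) := by
      have := htpy_symm hB (htpy_post a2 (c ≫ q))
      rw [Category.id_comp] at this
      simpa only [Category.assoc] using this
    have x2 : Htpy (q' ≫ p ≫ e ≫ c ≫ q) (q' ≫ p) := by
      have := htpy_pre (q' ≫ p) b1
      rw [Category.comp_id] at this
      simpa only [Category.assoc] using this
    exact htpy_trans hB x1 x2
  refine ⟨q' ≫ p, ?_, ?_⟩
  · have := htpy_pre e (htpy_symm hB hx)
    have h3 : Htpy (e ≫ c ≫ q) (𝟙 _) := by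
      rw [Category.assoc] at b1
      exact b1
    exact htpy_trans hB this h3
  · rw [Category.assoc]
    exact a2

theorem loc_isoMap (hZ : InjFib Z) (h : ∀ θ : Wr C, HoEq (Z.map (Wr.toPt θ).op)) (p : C)
    (hp : ∀ (c : C) (f g : c ⟶ p), f = g) (t : ∀ c : C, c ⟶ p) : Loc Z (isoMap C) := by
  have hK : ObjKan Z := objKan_of_injFib hZ
  have hK1 : ObjKan (ZT Z p hp) := fun a => hK _
  have hK2 : ObjKan (Zc Z) := fun a => hK _
  have hT : ∀ θ : Wr C, HoEq (Z.map (Wr.toPt ((TT p hp).obj θ)).op) := fun θ => h _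
  have hrs : ObjHoEq (rs Z p hp t) := by
    intro a
    refine hoEq_of_comp_left (hK (op Wr.pt)) (hK _) (hK _)
      (f := Z.map (Wr.toPt ((TT p hp).obj a.unop)).op) (hT a.unop) ?_
    have e : Z.map (Wr.toPt ((TT p hp).obj a.unop)).op ≫ (rs Z p hp t).app a =
        Z.map (Wr.toPt a.unop).op := by
      show Z.map _ ≫ Z.map _ = _
      rw [← Z.map_comp]
      refine congrArg Z.map ?_
      exact Quiver.Hom.unop_inj (Wr.toPt_unique _ _)
    rw [e]
    exact h a.unop
  have hls : ObjHoEq (ls Z p hp) := by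
    intro a
    refine hoEq_of_comp_left (hK (op Wr.pt)) (hK _) (hK _)
      (f := Z.map (Wr.toPt ((TT p hp).obj a.unop)).op) (hT a.unop) ?_
    have e : Z.map (Wr.toPt ((TT p hp).obj a.unop)).op ≫ (ls Z p hp).app a = 𝟙 _ := by
      show Z.map _ ≫ Z.map _ = _
      rw [← Z.map_comp, ← Z.map_id]
      refine congrArg Z.map ?_
      exact Quiver.Hom.unop_inj (Wr.toPt_unique _ _)
    rw [e]
    exact hoEq_of_isIso _
  have hM : ∀ (P : SP (Wr C)) {Y : SP (Wr C)}, InjFib Y → SSet.KanComplex (Mp P Y) :=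
    fun P Y hY => Pool.Agent.Helper83.FL4.Mp_kan P hY
  have hR : InjFib ((RR (Wr C)).obj Z) := RR_injFib hK
  have hR1 : InjFib ((RR (Wr C)).obj (ZT Z p hp)) := RR_injFib hK1
  have hR2 : InjFib ((RR (Wr C)).obj (Zc Z)) := RR_injFib hK2
  have pc : ∀ {X Y W : SP (Wr C)} (f : X ⟶ Y) (g : Y ⟶ W),
      Mp.post (disc (isoPsh C)) f ≫ Mp.post _ g = Mp.post _ (f ≫ g) := fun f g => rfl
  have ha : HoEq (GG Z p hp ≫ Mp.post _ ((RR (Wr C)).η (ZT Z p hp))) := by
    refine hoEq_of_comp_right (hM _ hZ) (hM _ hR1) (hM _ hR)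
      (g := Mp.post _ ((RR (Wr C)).map (rs Z p hp t)))
      (post_hoEq hR1 hR (RR_map_objHoEq hK1 hK hrs) _) ?_
    rw [Category.assoc, pc, ← (RR (Wr C)).η_naturality, ← pc, ← Category.assoc, GG_rs,
      Category.id_comp]
    exact post_hoEq hZ hR (RR_objHoEq hK) _
  have hb : HoEq (ev Z ≫ cs Z ≫ Mp.post _ ((RR (Wr C)).η (Zc Z))) := by
    rw [← Category.assoc, ← GG_ls Z p hp, Category.assoc, pc, (RR (Wr C)).η_naturality, ← pc,
      ← Category.assoc]
    exact hoEq_comp (hM _ hZ) (hM _ hR1) (hM _ hR2) ha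
      (post_hoEq hR1 hR2 (RR_map_objHoEq hK1 hK2 hls) _)
  have h1 : HoEq (Mp.pre (isoMap C) Z ≫ ev Z) := by
    have := ev1_isIso Z
    exact hoEq_of_isIso (ev1 Z)
  have he := two_six (hM _ hZ) h1 hb
  exact hoEq_of_comp_right (hM _ hZ) (hM _ hZ) (hK _) he h1

end Main

/-- `ptT n` is a terminal object. -/
def toPtT : (n : ℕ) → (θ : Th n) → (θ ⟶ ptT n)
  | 0, θ => (Discrete.eqToHom (Subsingleton.elim _ _) : (θ : Discrete PUnit.{1}) ⟶ ⟨PUnit.unit⟩)
  | (_ + 1), θ => Wr.toPt θ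

lemma toPtT_unique : ∀ (n : ℕ) (θ : Th n) (f g : θ ⟶ ptT n), f = g
  | 0, _, f, g => by
    obtain ⟨⟨f⟩⟩ := f
    obtain ⟨⟨g⟩⟩ := g
    rfl
  | (_ + 1), _, f, g => Wr.toPt_unique f g

/-- For `0`-truncated presheaves. -/
theorem iso_local_const {n : ℕ} {Z : SP (Th (n + 1))} (hZ : InjFib Z)
    (h : ∀ θ : Wr (Th n), HoEq (Z.map (Wr.toPt θ).op)) : Loc Z (isoMap (Th n)) :=
  loc_isoMap (C := Th n) Z hZ h (ptT n) (toPtT_unique n) (toPtT n)

end

end Pool.Agent.Helper54.FL2
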