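import Pool.Agent.Helper58.FL2.Loc
import Pool.Agent.Helper88.FL.Htpy
import Pool.Agent.Helper45.FL.Triv
import Pool.Agent.Helper85.FL.FL3

/-!
# Project FL2, module G5 (FIB), part A: lifting of paths, fibres
-/

open CategoryTheory MonoidalCategory CartesianMonoidalCategory Simplicial Opposite
  HomotopicalAlgebra Limits

set_option autoImplicit false

namespace Pool.Agent.Helper54.FL2

open _root_.FL SSet SSet.modelCategoryQuillen Pool.Agent.Helper45.FL2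

/-! ### Fibre products -/

section Fp

variable {E E' B K : SSet.{0}} {p : E ⟶ B} {q : E' ⟶ B}

theorem Fp_lift_fst (f : K ⟶ E) (g : K ⟶ E') (h : f ≫ p = g ≫ q) :
    Fp.lift f g h ≫ Fp.fst p q = f := rfl

theorem Fp_lift_snd (f : K ⟶ E) (g : K ⟶ E') (h : f ≫ p = g ≫ q) :
    Fp.lift f g h ≫ Fp.snd p q = g := rfl

theorem Fp_w (p : E ⟶ B) (q : E' ⟶ B) : Fp.fst p q ≫ p = Fp.snd p q ≫ q := by
  refine NatTrans.ext (funext fun k => ?_)
  refine ConcreteCategory.hom_ext _ _ fun z => ?_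
  exact z.2

theorem Fp_ext {a b : K ⟶ Fp p q} (h1 : a ≫ Fp.fst p q = b ≫ Fp.fst p q)
    (h2 : a ≫ Fp.snd p q = b ≫ Fp.snd p q) : a = b := by
  refine NatTrans.ext (funext fun k => ?_)
  refine ConcreteCategory.hom_ext _ _ fun z => ?_
  refine Subtype.ext (Prod.ext ?_ ?_)
  · exact ConcreteCategory.congr_hom (NatTrans.congr_app h1 k) z
  · exact ConcreteCategory.congr_hom (NatTrans.congr_app h2 k) z

theorem Fp_lift_of {K L : SSet.{0}} (i : K ⟶ L) (p : E ⟶ B) (q : E' ⟶ B)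
    (h : HasLiftingProperty i q) : HasLiftingProperty i (Fp.fst p q) := by
  constructor
  intro u v sq
  have sq' : CommSq (u ≫ Fp.snd p q) i q (v ≫ p) := ⟨by
    rw [Category.assoc, ← Fp_w, ← Category.assoc, sq.w, Category.assoc]⟩
  exact ⟨⟨{
    l := Fp.lift v sq'.lift sq'.fac_right.symm
    fac_left := by
      refine Fp_ext ?_ ?_
      · rw [Category.assoc, Fp_lift_fst, sq.w]
      · rw [Category.assoc, Fp_lift_snd, sq'.fac_left]
    fac_right := Fp_lift_fst _ _ _ }⟩⟩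

theorem Fp_lift_of' {K L : SSet.{0}} (i : K ⟶ L) (p : E ⟶ B) (q : E' ⟶ B)
    (h : HasLiftingProperty i p) : HasLiftingProperty i (Fp.snd p q) := by
  constructor
  intro u v sq
  have sq' : CommSq (u ≫ Fp.fst p q) i p (v ≫ q) := ⟨by
    rw [Category.assoc, Fp_w, ← Category.assoc, sq.w, Category.assoc]⟩
  exact ⟨⟨{
    l := Fp.lift sq'.lift v sq'.fac_right
    fac_left := by
      refine Fp_ext ?_ ?_
      · rw [Category.assoc, Fp_lift_fst, sq'.fac_left]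
      · rw [Category.assoc, Fp_lift_snd, sq.w]
    fac_right := Fp_lift_snd _ _ _ }⟩⟩

end Fp

theorem Fp_fst_kanFib {E₁ E₂ B : SSet.{0}} (p : E₁ ⟶ B) (q : E₂ ⟶ B) (hq : KanFib q) :
    KanFib (Fp.fst p q) := fun n i => Fp_lift_of _ p q (hq n i)

theorem Fp_snd_kanFib {E₁ E₂ B : SSet.{0}} (p : E₁ ⟶ B) (q : E₂ ⟶ B) (hp : KanFib p) :
    KanFib (Fp.snd p q) := fun n i => Fp_lift_of' _ p q (hp n i)

theorem Fp_fst_trivFib {E₁ E₂ B : SSet.{0}} (p : E₁ ⟶ B) (q : E₂ ⟶ B) (hq : TrivFib q) :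
    TrivFib (Fp.fst p q) := fun n => Fp_lift_of _ p q (hq n)

theorem Fp_snd_trivFib {E₁ E₂ B : SSet.{0}} (p : E₁ ⟶ B) (q : E₂ ⟶ B) (hp : TrivFib p) :
    TrivFib (Fp.snd p q) := fun n => Fp_lift_of' _ p q (hp n)

/-! ### Fibres -/

section Fb

variable {E B : SSet.{0}} {p : E ⟶ B} {b : B.obj (op ⦋0⦌)}

theorem Fb_ι_p (p : E ⟶ B) (b : B.obj (op ⦋0⦌)) : Fb.ι p b ≫ p = SSet.const b := by
  refine NatTrans.ext (funext fun k => ?_)
  refine ConcreteCategory.hom_ext _ _ fun z => ?_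
  exact z.2

theorem exists_fb {K : SSet.{0}} (u : K ⟶ E) (h : u ≫ p = SSet.const b) :
    ∃ u' : K ⟶ Fb p b, u' ≫ Fb.ι p b = u :=
  ⟨{ app := fun k => ↾ fun z => ⟨u.app k z, ConcreteCategory.congr_hom (NatTrans.congr_app h k) z⟩
     naturality := fun k l α => by
      refine ConcreteCategory.hom_ext _ _ fun z => ?_
      exact Subtype.ext (sset_nat u α z) }, rfl⟩

theorem Fb_ext {K : SSet.{0}} {u v : K ⟶ Fb p b} (h : u ≫ Fb.ι p b = v ≫ Fb.ι p b) : u = v := by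
  refine NatTrans.ext (funext fun k => ?_)
  refine ConcreteCategory.hom_ext _ _ fun z => ?_
  have := ConcreteCategory.congr_hom (NatTrans.congr_app h k) z
  exact Subtype.ext this

theorem Fb_map_ι {E' B' : SSet.{0}} {p' : E' ⟶ B'} (f : E ⟶ E') (g : B ⟶ B')
    (h : f ≫ p' = p ≫ g) (b : B.obj (op ⦋0⦌)) :
    Fb.map f g h b ≫ Fb.ι p' (g.app _ b) = Fb.ι p b ≫ f := rfl

end Fb

theorem kanFib_toUnit {X : SSet.{0}} (hX : SSet.KanComplex X) : KanFib (toUnit X) := by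
  intro n i
  constructor
  intro u v sq
  obtain ⟨σ, hσ⟩ := KanComplex.hornFilling u
  exact ⟨⟨{ l := σ, fac_left := hσ.symm, fac_right := toUnit_unique _ _ }⟩⟩

theorem kan_of_kanFib_toUnit {X : SSet.{0}} (h : KanFib (toUnit X)) : SSet.KanComplex X := by
  rw [KanComplex.iff]
  intro n i f hf
  have := fibration_of_kanFib h
  obtain ⟨φ, hφ, -⟩ := hf.exists_lift (toUnit X) (toUnit _) (by intros; exact toUnit_unique _ _)
  exact ⟨φ, hφ⟩

theorem kanFib_comp {X Y Z : SSet.{0}} {f : X ⟶ Y} {g : Y ⟶ Z} (hf : KanFib f) (hg : KanFib g) :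
    KanFib (f ≫ g) := by
  intro n i
  have := hf n i
  have := hg n i
  infer_instance

/-- The total space of a Kan fibration over a Kan complex. -/
theorem kan_total {E B : SSet.{0}} {p : E ⟶ B} (hp : KanFib p) (hB : SSet.KanComplex B) :
    SSet.KanComplex E := by
  refine kan_of_kanFib_toUnit ?_
  rw [toUnit_unique (toUnit E) (p ≫ toUnit B)]
  exact kanFib_comp hp (kanFib_toUnit hB)

theorem kan_fb {E B : SSet.{0}} {p : E ⟶ B} (hp : KanFib p) (b : B.obj (op ⦋0⦌)) :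
    SSet.KanComplex (Fb p b) := by
  refine kan_of_kanFib_toUnit ?_
  intro n i
  constructor
  intro u v sq
  have := hp n i
  have sq' : CommSq (u ≫ Fb.ι p b) Λ[n + 1, i].ι p (SSet.const b) := ⟨by
    rw [Category.assoc, Fb_ι_p, comp_const, comp_const]⟩
  obtain ⟨l, hl⟩ := exists_fb (p := p) (b := b) sq'.lift sq'.fac_right
  refine ⟨⟨{ l := l, fac_left := ?_, fac_right := toUnit_unique _ _ }⟩⟩
  refine Fb_ext ?_
  rw [Category.assoc, hl, sq'.fac_left]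

theorem kan_unit : SSet.KanComplex (𝟙_ SSet.{0}) := by
  refine kan_of_kanFib_toUnit ?_
  intro n i
  constructor
  intro u v sq
  exact ⟨⟨{ l := v, fac_left := toUnit_unique _ _, fac_right := toUnit_unique _ _ }⟩⟩

/-! ### Lifting of paths, from both ends -/

theorem horn_ι_const₁ : (Λ[1, 1] : (Δ[1] : SSet.{0}).Subcomplex).ι =
    SSet.const (stdSimplex.obj₀Equiv.{0}.symm 1) := by
  ext ⟨m⟩ ⟨s, hs⟩
  induction m using SimplexCategory.rec with | _ m =>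
  refine SSet.stdSimplex.ext _ _ fun i => ?_
  have h : s i ≠ 0 := by
    intro hi
    rw [mem_horn_iff_notMem_range] at hs
    obtain ⟨j, hj, hj'⟩ := hs
    apply hj'
    refine ⟨i, ?_⟩
    rw [hi]
    exact ((fin2 j).resolve_right hj).symm
  exact (fin2 (s i)).resolve_left h

theorem whisk₁ {X : SSet.{0}} : X ◁ (Λ[1, 1] : (Δ[1] : SSet.{0}).Subcomplex).ι =
    fst _ _ ≫ SSet.ι₁ := by
  refine CartesianMonoidalCategory.hom_ext _ _ ?_ ?_
  · rw [whiskerLeft_fst, Category.assoc, ι₁_fst, Category.comp_id]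
  · rw [whiskerLeft_snd, Category.assoc, ι₁_snd, horn_ι_const₁, comp_const, comp_const]

theorem exists_sec₁ {X : SSet.{0}} : ∃ j : X ⟶ X ⊗ (Λ[1, 1] : SSet.{0}), j ≫ fst _ _ = 𝟙 X := by
  refine ⟨lift (𝟙 X) (SSet.const ⟨stdSimplex.obj₀Equiv.{0}.symm 1, ?_⟩), lift_fst _ _⟩
  rw [mem_horn_iff_notMem_range]
  refine ⟨0, by decide, ?_⟩
  rintro ⟨i, hi⟩
  have h0 : (1 : Fin (1 + 1)) = 0 := hi
  exact absurd h0 (by decide)

/-- Relative path lifting, starting from the end `1`. -/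
theorem rel_path₁ {X E B : SSet.{0}} (p : E ⟶ B) [Fibration p] (A : X.Subcomplex)
    (h : X ⊗ Δ[1] ⟶ B) (f : X ⟶ E) (k : (A : SSet.{0}) ⊗ Δ[1] ⟶ E)
    (h1 : f ≫ p = SSet.ι₁ ≫ h) (h2 : k ≫ p = A.ι ▷ _ ≫ h) (h3 : SSet.ι₁ ≫ k = A.ι ≫ f) :
    ∃ h' : X ⊗ Δ[1] ⟶ E, h' ≫ p = h ∧ SSet.ι₁ ≫ h' = f ∧ A.ι ▷ _ ≫ h' = k := by
  have hA : anodyneExtensions (A.unionProd Λ[1, 1]).ι :=
    anodyneExtensions_unionProd_ι A _ (anodyneExtensions.horn_ι 1)
  have hp : (fibrations SSet.{0}) p := (HomotopicalAlgebra.fibration_iff p).1 inferInstance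
  have hlp := hA p hp
  have hpo := Subcomplex.unionProd.isPushout A (Λ[1, 1] : (Δ[1] : SSet.{0}).Subcomplex)
  have w : A.ι ▷ (Λ[1, 1] : SSet.{0}) ≫ fst _ _ ≫ f =
      (A : SSet.{0}) ◁ (Λ[1, 1] : (Δ[1] : SSet.{0}).Subcomplex).ι ≫ k := by
    rw [whisk₁, whiskerRight_fst_assoc, Category.assoc, h3]
  have hsq : CommSq (hpo.desc (fst _ _ ≫ f) k w) (A.unionProd Λ[1, 1]).ι p h := ⟨by
    apply hpo.hom_ext
    · rw [← Category.assoc, hpo.inl_desc, ← Category.assoc, Subcomplex.unionProd.ι₁_ι, whisk₁,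
        Category.assoc, Category.assoc, h1]
    · rw [← Category.assoc, hpo.inr_desc, ← Category.assoc, Subcomplex.unionProd.ι₂_ι, h2]⟩
  refine ⟨hsq.lift, hsq.fac_right, ?_, ?_⟩
  · have h4 : X ◁ (Λ[1, 1] : (Δ[1] : SSet.{0}).Subcomplex).ι ≫ hsq.lift = fst _ _ ≫ f := by
      rw [← Subcomplex.unionProd.ι₁_ι A, Category.assoc, hsq.fac_left, hpo.inl_desc]
    rw [whisk₁, Category.assoc] at h4
    obtain ⟨j, hj⟩ := exists_sec₁ (X := X)
    rw [← cancel_epi (𝟙 X), ← hj, Category.assoc, Category.assoc, h4]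
  · rw [← Subcomplex.unionProd.ι₂_ι A, Category.assoc, hsq.fac_left, hpo.inr_desc]

theorem path_lift₁ {X E B : SSet.{0}} (p : E ⟶ B) [Fibration p] (h : X ⊗ Δ[1] ⟶ B) (f : X ⟶ E)
    (h1 : f ≫ p = SSet.ι₁ ≫ h) :
    ∃ h' : X ⊗ Δ[1] ⟶ E, h' ≫ p = h ∧ SSet.ι₁ ≫ h' = f := by
  obtain ⟨h', a, b, -⟩ := rel_path₁ p (⊥ : X.Subcomplex) h f
    (fst _ _ ≫ Subcomplex.isInitialBot.to E) h1 (by
      ext m ⟨⟨x, hx⟩, _⟩
      exact hx.elim) (Subcomplex.isInitialBot.hom_ext _ _)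
  exact ⟨h', a, b⟩

theorem hom_ext_en {X Y : SSet.{0}} {a b : X ⊗ (∂Δ[1] : SSet.{0}) ⟶ Y}
    (h0 : en X 0 ≫ a = en X 0 ≫ b) (h1 : en X 1 ≫ a = en X 1 ≫ b) : a = b := by
  refine NatTrans.ext (funext fun m => ?_)
  refine ConcreteCategory.hom_ext _ _ fun z => ?_
  have key : ∀ i : Fin (1 + 1), stdSimplex.asOrderHom z.2.1 0 = i → (en X i).app m z.1 = z := by
    intro i hi
    refine Prod.ext rfl ?_
    refine Subtype.ext ?_
    obtain ⟨m⟩ := m
    induction m using SimplexCategory.rec with | _ m =>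
    refine SSet.stdSimplex.ext _ _ fun j => ?_
    have := boundary_const z.2 j 0
    exact (this.trans hi).symm
  rcases fin2 (stdSimplex.asOrderHom z.2.1 0) with h | h
  · have := key 0 h
    rw [← this]
    exact ConcreteCategory.congr_hom (NatTrans.congr_app h0 m) z.1
  · have := key 1 h
    rw [← this]
    exact ConcreteCategory.congr_hom (NatTrans.congr_app h1 m) z.1

theorem en_nat {X Y : SSet.{0}} (f : X ⟶ Y) (i : Fin (1 + 1)) :
    en X i ≫ f ▷ (∂Δ[1] : SSet.{0}) = f ≫ en Y i := rfl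

/-- Relative path lifting with both ends fixed. -/
theorem rel_path_two {X E B : SSet.{0}} (p : E ⟶ B) [Fibration p] (A : X.Subcomplex)
    (hA : anodyneExtensions A.ι) (h : X ⊗ Δ[1] ⟶ B) (f₀ f₁ : X ⟶ E)
    (k : (A : SSet.{0}) ⊗ Δ[1] ⟶ E) (h0 : f₀ ≫ p = SSet.ι₀ ≫ h) (h1 : f₁ ≫ p = SSet.ι₁ ≫ h)
    (hk : k ≫ p = A.ι ▷ _ ≫ h) (k0 : SSet.ι₀ ≫ k = A.ι ≫ f₀) (k1 : SSet.ι₁ ≫ k = A.ι ≫ f₁) :
    ∃ h' : X ⊗ Δ[1] ⟶ E, h' ≫ p = h ∧ SSet.ι₀ ≫ h' = f₀ ∧ SSet.ι₁ ≫ h' = f₁ ∧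
      A.ι ▷ _ ≫ h' = k := by
  have hU : anodyneExtensions (A.unionProd ∂Δ[1]).ι := anodyneExtensions_unionProd_ι' A _ hA
  have hp : (fibrations SSet.{0}) p := (HomotopicalAlgebra.fibration_iff p).1 inferInstance
  have hlp := hU p hp
  have hpo := Subcomplex.unionProd.isPushout A (∂Δ[1] : (Δ[1] : SSet.{0}).Subcomplex)
  have w : A.ι ▷ (∂Δ[1] : SSet.{0}) ≫ two f₀ f₁ =
      (A : SSet.{0}) ◁ (∂Δ[1] : (Δ[1] : SSet.{0}).Subcomplex).ι ≫ k := by
    refine hom_ext_en ?_ ?_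
    · rw [← Category.assoc, en_nat, Category.assoc, en_zero_two, ← Category.assoc, en_zero, k0]
    · rw [← Category.assoc, en_nat, Category.assoc, en_one_two, ← Category.assoc, en_one, k1]
  have hsq : CommSq (hpo.desc (two f₀ f₁) k w) (A.unionProd ∂Δ[1]).ι p h := ⟨by
    apply hpo.hom_ext
    · rw [← Category.assoc, hpo.inl_desc, ← Category.assoc, Subcomplex.unionProd.ι₁_ι]
      refine hom_ext_en ?_ ?_
      · rw [← Category.assoc, en_zero_two, ← Category.assoc, en_zero, h0]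
      · rw [← Category.assoc, en_one_two, ← Category.assoc, en_one, h1]
    · rw [← Category.assoc, hpo.inr_desc, ← Category.assoc, Subcomplex.unionProd.ι₂_ι, hk]⟩
  have h4 : X ◁ (∂Δ[1] : (Δ[1] : SSet.{0}).Subcomplex).ι ≫ hsq.lift = two f₀ f₁ := by
    rw [← Subcomplex.unionProd.ι₁_ι A, Category.assoc, hsq.fac_left, hpo.inl_desc]
  refine ⟨hsq.lift, hsq.fac_right, ?_, ?_, ?_⟩
  · rw [← en_zero, Category.assoc, h4, en_zero_two]
  · rw [← en_one, Category.assoc, h4, en_one_two]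
  · rw [← Subcomplex.unionProd.ι₂_ι A, Category.assoc, hsq.fac_left, hpo.inr_desc]

/-! ### The extension property over a given map of the base -/

/-- Every partial lift of `v` on `A` extends to a lift of `v`. -/
def Ex {X E B : SSet.{0}} (p : E ⟶ B) (A : X.Subcomplex) (v : X ⟶ B) : Prop :=
  ∀ u : (A : SSet.{0}) ⟶ E, u ≫ p = A.ι ≫ v → ∃ f : X ⟶ E, A.ι ≫ f = u ∧ f ≫ p = v

theorem Ex.htpy {X E B : SSet.{0}} {p : E ⟶ B} (hp : KanFib p) (A : X.Subcomplex)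
    (h : X ⊗ Δ[1] ⟶ B) (h0 : Ex p A (SSet.ι₀ ≫ h)) : Ex p A (SSet.ι₁ ≫ h) := by
  have := fibration_of_kanFib hp
  intro u hu
  obtain ⟨k, hk, hk1⟩ := path_lift₁ p (A.ι ▷ Δ[1] ≫ h) u (by
    rw [hu, ι₁_comp_assoc])
  obtain ⟨f, hf, hfp⟩ := h0 (SSet.ι₀ ≫ k) (by
    rw [Category.assoc, hk, ι₀_comp_assoc])
  obtain ⟨h', hp', h0', hA'⟩ := rel_path p A h f k hfp hk hf.symm
  refine ⟨SSet.ι₁ ≫ h', ?_, ?_⟩
  · rw [← ι₁_comp_assoc, hA', hk1]
  · rw [Category.assoc, hp']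

theorem lift_of_ex {X E B : SSet.{0}} {p : E ⟶ B} (A : X.Subcomplex)
    (h : ∀ v : X ⟶ B, Ex p A v) : HasLiftingProperty A.ι p := by
  constructor
  intro u v sq
  obtain ⟨f, hf, hfp⟩ := h v u sq.w
  exact ⟨⟨{ l := f, fac_left := hf, fac_right := hfp }⟩⟩

/-- The fibre of `p` over `b` is contractible, in terms of extensions. -/
def Ctr {E B : SSet.{0}} (p : E ⟶ B) (b : B.obj (op ⦋0⦌)) : Prop :=
  ∀ n : ℕ, Ex p (∂Δ[n] : (Δ[n] : SSet.{0}).Subcomplex) (SSet.const b)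

theorem ctr_of_hoEq {E B : SSet.{0}} {p : E ⟶ B} (hp : KanFib p) (b : B.obj (op ⦋0⦌))
    (h : HoEq (toUnit (Fb p b))) : Ctr p b := by
  intro n u hu
  have hT : TrivFib (toUnit (Fb p b)) :=
    trivFib_of_hoEq (kan_fb hp b) kan_unit (kanFib_toUnit (kan_fb hp b)) h
  obtain ⟨u', hu'⟩ := exists_fb (p := p) (b := b) u (by rw [hu, comp_const])
  have := hT n
  have sq : CommSq u' ∂Δ[n].ι (toUnit (Fb p b)) (toUnit _) := ⟨toUnit_unique _ _⟩
  refine ⟨sq.lift ≫ Fb.ι p b, ?_, ?_⟩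
  · rw [← Category.assoc, sq.fac_left, hu']
  · rw [Category.assoc, Fb_ι_p, comp_const]

theorem const_inj₀ {B : SSet.{0}} {x y : B.obj (op ⦋0⦌)}
    (h : (SSet.const x : (Δ[0] : SSet.{0}) ⟶ B) = SSet.const y) : x = y := by
  have := congrArg yonedaEquiv h
  rwa [yonedaEquiv_const, yonedaEquiv_const] at this

theorem exists_path_of_cn {X B : SSet.{0}} {b b' : B.obj (op ⦋0⦌)} (h : Cn B b b') :
    ∃ h : X ⊗ Δ[1] ⟶ B, SSet.ι₀ ≫ h = SSet.const b ∧ SSet.ι₁ ≫ h = SSet.const b' := by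
  obtain ⟨e, rfl, rfl⟩ := h
  refine ⟨snd _ _ ≫ yonedaEquiv.symm e, ?_, ?_⟩
  · rw [← Category.assoc, ι₀_snd, const_comp]
    congr 1
    refine const_inj₀ ?_
    rw [← const_comp, ← stdSimplex.δ_one_eq_const]
    refine yonedaEquiv.injective ?_
    rw [yonedaEquiv_const]
    erw [stdSimplex.yonedaEquiv_δ_comp]
  · rw [← Category.assoc, ι₁_snd, const_comp]
    congr 1
    refine const_inj₀ ?_
    rw [← const_comp, ← stdSimplex.δ_zero_eq_const]
    refine yonedaEquiv.injective ?_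
    rw [yonedaEquiv_const]
    erw [stdSimplex.yonedaEquiv_δ_comp]

theorem Ctr.of_cn {E B : SSet.{0}} {p : E ⟶ B} (hp : KanFib p) {b b' : B.obj (op ⦋0⦌)}
    (h : Cn B b b') (hb : Ctr p b) : Ctr p b' := by
  intro n
  obtain ⟨H, h0, h1⟩ := exists_path_of_cn (X := Δ[n]) h
  rw [← h1]
  refine Ex.htpy hp _ H ?_
  rw [h0]
  exact hb n

/-! ### The contraction of the simplex to its first vertex -/

/-- the contraction -/
noncomputable def contr (n : ℕ) : (Δ[n] : SSet.{0}) ⊗ Δ[1] ⟶ Δ[n] where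
  app m := ↾ fun z => stdSimplex.objMk ⟨fun i =>
    if stdSimplex.asOrderHom z.2 i = 0 then 0 else stdSimplex.asOrderHom z.1 i, by
      intro i j hij
      dsimp only
      split_ifs with h1 h2 h2
      · exact le_rfl
      · exact Fin.zero_le _
      · exact absurd (le_antisymm ((stdSimplex.asOrderHom z.2).monotone hij |>.trans_eq h2)
          (Fin.zero_le _)) h1
      · exact (stdSimplex.asOrderHom z.1).monotone hij⟩
  naturality m m' α := by
    refine ConcreteCategory.hom_ext _ _ fun z => ?_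
    obtain ⟨m⟩ := m
    obtain ⟨m'⟩ := m'
    induction m using SimplexCategory.rec with | _ m =>
    induction m' using SimplexCategory.rec with | _ m' =>
    refine SSet.stdSimplex.ext _ _ fun j => ?_
    rfl

theorem contr_one (n : ℕ) : SSet.ι₁ ≫ contr n = 𝟙 _ := by
  refine NatTrans.ext (funext fun m => ?_)
  refine ConcreteCategory.hom_ext _ _ fun z => ?_
  obtain ⟨m⟩ := m
  induction m using SimplexCategory.rec with | _ m =>
  refine SSet.stdSimplex.ext _ _ fun j => ?_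
  rfl

theorem contr_zero (n : ℕ) : SSet.ι₀ ≫ contr n = SSet.const (stdSimplex.obj₀Equiv.{0}.symm 0) := by
  refine NatTrans.ext (funext fun m => ?_)
  refine ConcreteCategory.hom_ext _ _ fun z => ?_
  obtain ⟨m⟩ := m
  induction m using SimplexCategory.rec with | _ m =>
  refine SSet.stdSimplex.ext _ _ fun j => ?_
  rfl

theorem trivFib_of_ctr {E B : SSet.{0}} {p : E ⟶ B} (hp : KanFib p)
    (h : ∀ b, Ctr p b) : TrivFib p := by
  intro n
  refine lift_of_ex _ fun v => ?_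
  have h1 : v = SSet.ι₁ ≫ contr n ≫ v := by
    rw [← Category.assoc, contr_one, Category.id_comp]
  rw [h1]
  refine Ex.htpy hp _ _ ?_
  rw [← Category.assoc, contr_zero, const_comp]
  exact h _ n

theorem trivFib_of_ctr' {E B : SSet.{0}} {p : E ⟶ B} (hp : KanFib p)
    (O : Set (B.obj (op ⦋0⦌))) (hO : ∀ b, ∃ b' ∈ O, Cn B b' b)
    (h : ∀ b ∈ O, Ctr p b) : TrivFib p := by
  refine trivFib_of_ctr hp fun b => ?_
  obtain ⟨b', hb', hc⟩ := hO b
  exact Ctr.of_cn hp hc (h b' hb')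

theorem trivFib_of_fibres {E B : SSet.{0}} {p : E ⟶ B} (hp : KanFib p)
    (O : Set (B.obj (op (SimplexCategory.mk 0))))
    (hO : ∀ b, ∃ b' ∈ O, Cn B b' b)
    (h : ∀ b ∈ O, HoEq (CartesianMonoidalCategory.toUnit (Fb p b))) : TrivFib p :=
  trivFib_of_ctr' hp O hO fun b hb => ctr_of_hoEq hp b (h b hb)

end Pool.Agent.Helper54.FL2
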