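import Pool.Agent.Helper54.FL2.FibA

/-!
# Project FL2, module G5 (FIB), part B: mapping path fibrations
-/

open CategoryTheory MonoidalCategory CartesianMonoidalCategory Simplicial Opposite
  HomotopicalAlgebra Limits

set_option autoImplicit false

namespace Pool.Agent.Helper54.FL2

open _root_.FL SSet SSet.modelCategoryQuillen Pool.Agent.Helper45.FL2

/-! ### Path objects -/

/-- the path object -/
noncomputable def PP (Y : SSet.{0}) : SSet.{0} := (ihom (Δ[1] : SSet.{0})).obj Y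

/-- evaluation of paths -/
noncomputable def pev (Y : SSet.{0}) : PP Y ⊗ Δ[1] ⟶ Y :=
  (β_ (PP Y) (Δ[1] : SSet.{0})).hom ≫ (ihom.ev (Δ[1] : SSet.{0})).app Y

/-- the map to the path object given by a homotopy -/
noncomputable def pth {K Y : SSet.{0}} (h : K ⊗ Δ[1] ⟶ Y) : K ⟶ PP Y :=
  MonoidalClosed.curry ((β_ (Δ[1] : SSet.{0}) K).hom ≫ h)

theorem br_ev {K Y : SSet.{0}} (φ : K ⟶ (ihom (Δ[1] : SSet.{0})).obj Y) :
    φ ▷ Δ[1] ≫ (β_ _ (Δ[1] : SSet.{0})).hom ≫ (ihom.ev (Δ[1] : SSet.{0})).app Y =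
      (β_ K (Δ[1] : SSet.{0})).hom ≫ MonoidalClosed.uncurry φ := by
  rw [← Category.assoc, BraidedCategory.braiding_naturality_left, Category.assoc,
    ← MonoidalClosed.uncurry_eq]

theorem pth_ev {K Y : SSet.{0}} (h : K ⊗ Δ[1] ⟶ Y) : pth h ▷ Δ[1] ≫ pev Y = h := by
  have h1 : MonoidalClosed.uncurry (MonoidalClosed.curry ((β_ (Δ[1] : SSet.{0}) K).hom ≫ h)) =
    (β_ (Δ[1] : SSet.{0}) K).hom ≫ h := MonoidalClosed.uncurry_curry _
  refine (br_ev _).trans ((congrArg ((β_ K (Δ[1] : SSet.{0})).hom ≫ ·) h1).trans ?_)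
  rw [← Category.assoc, SymmetricCategory.symmetry, Category.id_comp]

theorem pth_ext {K Y : SSet.{0}} {a b : K ⟶ PP Y} (h : a ▷ Δ[1] ≫ pev Y = b ▷ Δ[1] ≫ pev Y) :
    a = b := by
  have h' := (br_ev a).symm.trans (h.trans (br_ev b))
  exact MonoidalClosed.uncurry_injective ((cancel_epi _).1 h')

/-- the start of a path -/
noncomputable def e₀ (Y : SSet.{0}) : PP Y ⟶ Y := SSet.ι₀ ≫ pev Y

/-- the end of a path -/
noncomputable def e₁ (Y : SSet.{0}) : PP Y ⟶ Y := SSet.ι₁ ≫ pev Y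

theorem comp_e₀ {K Y : SSet.{0}} (a : K ⟶ PP Y) : a ≫ e₀ Y = SSet.ι₀ ≫ a ▷ Δ[1] ≫ pev Y := by
  rw [e₀, ι₀_comp_assoc]

theorem comp_e₁ {K Y : SSet.{0}} (a : K ⟶ PP Y) : a ≫ e₁ Y = SSet.ι₁ ≫ a ▷ Δ[1] ≫ pev Y := by
  rw [e₁, ι₁_comp_assoc]

theorem e₀_trivFib {Y : SSet.{0}} (hY : SSet.KanComplex Y) : TrivFib (e₀ Y) := by
  intro n
  constructor
  intro u v sq
  have := fibration_of_kanFib (kanFib_toUnit hY)
  obtain ⟨h', -, h1, h2⟩ := rel_path (toUnit Y) (∂Δ[n] : (Δ[n] : SSet.{0}).Subcomplex)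
    (toUnit _) v (u ▷ Δ[1] ≫ pev Y) (toUnit_unique _ _) (toUnit_unique _ _) (by
      rw [← comp_e₀, sq.w])
  refine ⟨⟨{ l := pth h', fac_left := ?_, fac_right := ?_ }⟩⟩
  · refine pth_ext ?_
    rw [comp_whiskerRight, Category.assoc, pth_ev, h2]
  · rw [comp_e₀, pth_ev, h1]

/-! ### Mapping path spaces -/

section MP

variable {X Y K : SSet.{0}} (f : X ⟶ Y)

/-- the mapping path space -/
noncomputable def MP : SSet.{0} := Fp f (e₀ Y)

/-- the retraction -/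
noncomputable def mr : MP f ⟶ X := Fp.fst f (e₀ Y)

/-- the universal path -/
noncomputable def mpath : MP f ⊗ Δ[1] ⟶ Y := Fp.snd f (e₀ Y) ▷ Δ[1] ≫ pev Y

/-- the end point -/
noncomputable def mq : MP f ⟶ Y := SSet.ι₁ ≫ mpath f

theorem ι₀_mpath : SSet.ι₀ ≫ mpath f = mr f ≫ f := by
  refine (ι₀_comp_assoc (Fp.snd f (e₀ Y)) (pev Y)).trans ?_
  exact (Fp_w f (e₀ Y)).symm

variable {f}

/-- maps to the mapping path space -/
noncomputable def mpl (x : K ⟶ X) (h : K ⊗ Δ[1] ⟶ Y) (w : x ≫ f = SSet.ι₀ ≫ h) : K ⟶ MP f :=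
  Fp.lift x (pth h) (by rw [comp_e₀, pth_ev, w])

theorem mpl_mr (x : K ⟶ X) (h : K ⊗ Δ[1] ⟶ Y) (w : x ≫ f = SSet.ι₀ ≫ h) :
    mpl x h w ≫ mr f = x := rfl

theorem mpl_mpath (x : K ⟶ X) (h : K ⊗ Δ[1] ⟶ Y) (w : x ≫ f = SSet.ι₀ ≫ h) :
    mpl x h w ▷ Δ[1] ≫ mpath f = h := pth_ev h

theorem mpl_mq (x : K ⟶ X) (h : K ⊗ Δ[1] ⟶ Y) (w : x ≫ f = SSet.ι₀ ≫ h) :
    mpl x h w ≫ mq f = SSet.ι₁ ≫ h := by
  rw [mq, ← ι₁_comp_assoc, mpl_mpath]

theorem comp_mq (a : K ⟶ MP f) : a ≫ mq f = SSet.ι₁ ≫ a ▷ Δ[1] ≫ mpath f := by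
  rw [mq, ι₁_comp_assoc]

theorem comp_mr (a : K ⟶ MP f) : a ≫ mr f ≫ f = SSet.ι₀ ≫ a ▷ Δ[1] ≫ mpath f := by
  rw [ι₀_comp_assoc, ι₀_mpath]

theorem mp_ext {a b : K ⟶ MP f} (h1 : a ≫ mr f = b ≫ mr f)
    (h2 : a ▷ Δ[1] ≫ mpath f = b ▷ Δ[1] ≫ mpath f) : a = b := by
  exact Fp_ext h1 (pth_ext h2)

variable (f)

/-- the section -/
noncomputable def ms : X ⟶ MP f := mpl (𝟙 X) (fst _ _ ≫ f) (by rw [ι₀_fst_assoc, Category.id_comp])

theorem ms_mr : ms f ≫ mr f = 𝟙 X := rfl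

theorem ms_mq : ms f ≫ mq f = f := by
  rw [ms, mpl_mq, ι₁_fst_assoc]

theorem ms_mpath : ms f ▷ Δ[1] ≫ mpath f = fst _ _ ≫ f := mpl_mpath _ _ _

variable {f}

theorem mr_trivFib (hY : SSet.KanComplex Y) : TrivFib (mr f) :=
  Fp_fst_trivFib f (e₀ Y) (e₀_trivFib hY)

theorem kan_mp (hX : SSet.KanComplex X) (hY : SSet.KanComplex Y) : SSet.KanComplex (MP f) :=
  kan_total (TrivFib.kanFib (mr_trivFib (f := f) hY)) hX

theorem mq_kanFib (hX : SSet.KanComplex X) (hY : SSet.KanComplex Y) : KanFib (mq f) := by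
  intro n i
  constructor
  intro u v sq
  obtain ⟨x, hx⟩ := KanComplex.hornFilling (u ≫ mr f)
  have := fibration_of_kanFib (kanFib_toUnit hY)
  obtain ⟨h', -, h0, h1, h2⟩ := rel_path_two (toUnit Y) (Λ[n + 1, i] : (Δ[n + 1] : SSet.{0}).Subcomplex)
    (anodyneExtensions.horn_ι i) (toUnit _) (x ≫ f) v (u ▷ Δ[1] ≫ mpath f)
    (toUnit_unique _ _) (toUnit_unique _ _) (toUnit_unique _ _)
    (by rw [← comp_mr, ← Category.assoc, hx, Category.assoc]) (by rw [← comp_mq, sq.w])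
  refine ⟨⟨{ l := mpl x h' h0.symm, fac_left := ?_, fac_right := ?_ }⟩⟩
  · refine mp_ext ?_ ?_
    · rw [Category.assoc, mpl_mr, hx]
    · rw [comp_whiskerRight, Category.assoc, mpl_mpath, h2]
  · rw [mpl_mq, h1]

theorem ms_hoEq (hX : SSet.KanComplex X) (hY : SSet.KanComplex Y) : HoEq (ms f) := by
  refine Pool.Agent.Helper88.FL.hoEq_of_comp_right hX (kan_mp hX hY) hX
    (TrivFib.hoEq (mr_trivFib (f := f) hY)) ?_
  rw [ms_mr]
  exact Pool.Agent.Helper88.FL.hoEq_of_isIso _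

theorem mq_trivFib_of_hoEq (hX : SSet.KanComplex X) (hY : SSet.KanComplex Y) (h : HoEq f) :
    TrivFib (mq f) := by
  refine trivFib_of_hoEq (kan_mp hX hY) hY (mq_kanFib hX hY) ?_
  refine Pool.Agent.Helper88.FL.hoEq_of_comp_left hX (kan_mp hX hY) hY (ms_hoEq hX hY) ?_
  rw [ms_mq]
  exact h

theorem hoEq_of_mq (hX : SSet.KanComplex X) (hY : SSet.KanComplex Y) (h : HoEq (mq f)) :
    HoEq f := by
  have := Pool.Agent.Helper88.FL.hoEq_comp hX (kan_mp hX hY) hY (ms_hoEq (f := f) hX hY) h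
  rwa [ms_mq] at this

end MP

/-! ### The comparison map -/

section Theta

variable {E B E' B' : SSet.{0}} {p : E ⟶ B} {p' : E' ⟶ B'} {f : E ⟶ E'} {g : B ⟶ B'}

/-- the map of mapping path spaces -/
noncomputable def mmap (w : f ≫ p' = p ≫ g) : MP f ⟶ MP g :=
  mpl (mr f ≫ p) (mpath f ≫ p') (by
    rw [Category.assoc, ← w, ← Category.assoc, ← ι₀_mpath, Category.assoc])

theorem mmap_mr (w : f ≫ p' = p ≫ g) : mmap w ≫ mr g = mr f ≫ p := rfl

theorem mmap_mpath (w : f ≫ p' = p ≫ g) : mmap w ▷ Δ[1] ≫ mpath g = mpath f ≫ p' :=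
  mpl_mpath _ _ _

theorem mmap_mq (w : f ≫ p' = p ≫ g) : mmap w ≫ mq g = mq f ≫ p' := by
  rw [mmap, mpl_mq, ← Category.assoc]
  rfl

/-- the comparison map -/
noncomputable def Th (w : f ≫ p' = p ≫ g) : MP f ⟶ Fp (mq g) p' :=
  Fp.lift (mmap w) (mq f) (mmap_mq w)

theorem Th_fst (w : f ≫ p' = p ≫ g) : Th w ≫ Fp.fst (mq g) p' = mmap w := rfl

theorem Th_snd (w : f ≫ p' = p ≫ g) : Th w ≫ Fp.snd (mq g) p' = mq f := rfl

theorem Th_kanFib (w : f ≫ p' = p ≫ g) (hp : KanFib p) (hp' : KanFib p') : KanFib (Th w) := by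
  intro n i
  constructor
  intro u v sq
  have hpi := hp n i
  have := fibration_of_kanFib hp'
  have w1 : u ≫ mmap w = Λ[n + 1, i].ι ≫ v ≫ Fp.fst (mq g) p' := by
    rw [← Th_fst w, ← Category.assoc, sq.w, Category.assoc]
  have w2 : u ≫ mq f = Λ[n + 1, i].ι ≫ v ≫ Fp.snd (mq g) p' := by
    rw [← Th_snd w, ← Category.assoc, sq.w, Category.assoc]
  have sq1 : CommSq (u ≫ mr f) Λ[n + 1, i].ι p (v ≫ Fp.fst (mq g) p' ≫ mr g) := ⟨by
    rw [Category.assoc, ← mmap_mr w, ← Category.assoc, w1]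
    simp only [Category.assoc]⟩
  obtain ⟨h', hp1, h0, h1, h2⟩ := rel_path_two p' (Λ[n + 1, i] : (Δ[n + 1] : SSet.{0}).Subcomplex)
    (anodyneExtensions.horn_ι i) ((v ≫ Fp.fst (mq g) p') ▷ Δ[1] ≫ mpath g) (sq1.lift ≫ f)
    (v ≫ Fp.snd (mq g) p') (u ▷ Δ[1] ≫ mpath f)
    (by
      rw [Category.assoc, w, ← Category.assoc, sq1.fac_right, ← comp_mr]
      simp only [Category.assoc])
    (by rw [← comp_mq, Category.assoc, Category.assoc, Fp_w])
    (by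
      rw [Category.assoc, ← mmap_mpath w, ← Category.assoc, ← comp_whiskerRight, w1,
        comp_whiskerRight, Category.assoc])
    (by rw [← comp_mr, ← Category.assoc, ← Category.assoc, sq1.fac_left])
    (by rw [← comp_mq, w2])
  refine ⟨⟨{ l := mpl sq1.lift h' h0.symm, fac_left := ?_, fac_right := ?_ }⟩⟩
  · refine mp_ext ?_ ?_
    · rw [Category.assoc, mpl_mr, sq1.fac_left]
    · rw [comp_whiskerRight, Category.assoc, mpl_mpath, h2]
  · refine Fp_ext (mp_ext ?_ ?_) ?_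
    · rw [Category.assoc, Category.assoc, ← Category.assoc (Th w), Th_fst, mmap_mr,
        ← Category.assoc, mpl_mr, sq1.fac_right, Category.assoc]
    · rw [Category.assoc, Th_fst, comp_whiskerRight, Category.assoc, mmap_mpath,
        ← Category.assoc, mpl_mpath, hp1]
    · rw [Category.assoc, Th_snd, mpl_mq, h1]

theorem kan_Q (hB : SSet.KanComplex B) (hB' : SSet.KanComplex B')
    (hp' : KanFib p') : SSet.KanComplex (Fp (mq g) p') :=
  kan_total (Fp_fst_kanFib (mq g) p' hp') (kan_mp hB hB')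

theorem Th_trivFib (w : f ≫ p' = p ≫ g) (hp : KanFib p) (hp' : KanFib p')
    (hB : SSet.KanComplex B) (hB' : SSet.KanComplex B') (hf : HoEq f) (hg : HoEq g) :
    TrivFib (Th w) := by
  have hE := kan_total hp hB
  have hE' := kan_total hp' hB'
  refine trivFib_of_hoEq (kan_mp hE hE') (kan_Q hB hB' hp') (Th_kanFib w hp hp') ?_
  refine Pool.Agent.Helper88.FL.hoEq_of_comp_right (g := Fp.snd (mq g) p') (kan_mp hE hE')
    (kan_Q hB hB' hp') hE'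
    (TrivFib.hoEq (Fp_snd_trivFib (mq g) p' (mq_trivFib_of_hoEq hB hB' hg))) ?_
  rw [Th_snd]
  exact TrivFib.hoEq (mq_trivFib_of_hoEq hE hE' hf)

end Theta

end Pool.Agent.Helper54.FL2
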